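import Pool.Agent.Helper7.ST.Gram

set_option autoImplicit false

/-!
Bessel inequality for sums over the primes of a number field twisted by Dirichlet characters of the
norm.
-/

namespace Pool.Agent.Helper7.ST

open Filter Topology Finset NumberField IsDedekindDomain
open Pool.Agent.Helper4.ST (PS coef qv primesLE mem_primesLE card_norm_eq card_higher sum_compare
  norm_coef_le)

universe u

theorem sqrt_div_pi : Tendsto (fun X : ℕ => Real.sqrt X / (Nat.primeCounting X : ℝ)) atTop (𝓝 0) := by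
  have h1 := Pool.Agent.Helper6.pnt_nat
  have h2 : Tendsto (fun X : ℕ => Real.log X / Real.sqrt X) atTop (𝓝 0) := by
    have h3 : Tendsto (fun x : ℝ => Real.log x / Real.sqrt x) atTop (𝓝 0) := by
      have := isLittleO_log_rpow_atTop (r := 1 / 2) (by norm_num)
      refine (this.tendsto_div_nhds_zero).congr fun x => ?_
      rw [Real.sqrt_eq_rpow]
    exact h3.comp tendsto_natCast_atTop_atTop
  have h3 := h2.div h1 one_ne_zero
  rw [zero_div] at h3
  refine h3.congr' ?_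
  filter_upwards [eventually_ge_atTop 2, tendsto_pi.eventually_gt_atTop 0] with X hX hpi
  have hX0 : (0 : ℝ) < X := by exact_mod_cast (by omega : 0 < X)
  have hlog : 0 < Real.log X := Real.log_pos (by exact_mod_cast (by omega : 1 < X))
  have hs : 0 < Real.sqrt X := Real.sqrt_pos.2 hX0
  simp only [Pi.div_apply]
  rw [div_div, div_eq_div_iff (by positivity) (by positivity)]
  field_simp
  rw [Real.sq_sqrt hX0.le]

section

variable {K : Type u} [Field K] [NumberField K]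

open Classical in
theorem sum_coef_sq (X : ℕ) (good : HeightOneSpectrum (𝓞 K) → Prop)
    (F : HeightOneSpectrum (𝓞 K) → ℂ) :
    ∑ p ∈ P X, ‖coef ((primesLE K X).filter good) F p‖ ^ 2 ≤
      Module.finrank ℚ K * ∑ v ∈ (primesLE K X).filter good, ‖F v‖ ^ 2 := by
  set G := (primesLE K X).filter good with hG
  have h1 : ∀ p ∈ P X, ‖coef G F p‖ ^ 2 ≤
      Module.finrank ℚ K * ∑ v ∈ G.filter (fun v => qv v = p), ‖F v‖ ^ 2 := by
    intro p hp
    have hpp : p.Prime := (Finset.mem_filter.1 hp).2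
    unfold coef
    rw [if_pos hpp]
    have h2 : ‖∑ v ∈ G.filter (fun v => qv v = p), F v‖ ≤
        ∑ v ∈ G.filter (fun v => qv v = p), 1 * ‖F v‖ := by
      simp only [one_mul]
      exact norm_sum_le _ _
    calc ‖∑ v ∈ G.filter (fun v => qv v = p), F v‖ ^ 2
        ≤ (∑ v ∈ G.filter (fun v => qv v = p), 1 * ‖F v‖) ^ 2 :=
          pow_le_pow_left₀ (norm_nonneg _) h2 2
      _ ≤ (∑ v ∈ G.filter (fun v => qv v = p), (1 : ℝ) ^ 2) *
          ∑ v ∈ G.filter (fun v => qv v = p), ‖F v‖ ^ 2 := Finset.sum_mul_sq_le_sq_mul_sq _ _ _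
      _ ≤ Module.finrank ℚ K * ∑ v ∈ G.filter (fun v => qv v = p), ‖F v‖ ^ 2 := by
          have h3 : ∑ v ∈ G.filter (fun v => qv v = p), (1 : ℝ) ^ 2 ≤ Module.finrank ℚ K := by
            have := card_norm_eq p hpp (G.filter (fun v => qv v = p))
              (fun v hv => (Finset.mem_filter.1 hv).2)
            simp only [one_pow, Finset.sum_const, nsmul_eq_mul, mul_one]
            exact_mod_cast this
          have h4 : 0 ≤ ∑ v ∈ G.filter (fun v => qv v = p), ‖F v‖ ^ 2 :=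
            Finset.sum_nonneg fun _ _ => by positivity
          gcongr
  refine (Finset.sum_le_sum h1).trans ?_
  rw [← Finset.mul_sum]
  have h2 : ∑ p ∈ P X, ∑ v ∈ G.filter (fun v => qv v = p), ‖F v‖ ^ 2 ≤ ∑ v ∈ G, ‖F v‖ ^ 2 := by
    have h3 : ∑ p ∈ P X, ∑ v ∈ G.filter (fun v => qv v = p), ‖F v‖ ^ 2 =
        ∑ v ∈ G.filter (fun v => qv v ∈ P X), ‖F v‖ ^ 2 := by
      rw [← Finset.sum_fiberwise_of_maps_to (s := G.filter (fun v => qv v ∈ P X)) (t := P X)
        (g := fun v => qv v) (fun v hv => (Finset.mem_filter.1 hv).2)]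
      refine Finset.sum_congr rfl fun p hp => Finset.sum_congr ?_ fun _ _ => rfl
      ext v
      simp only [Finset.mem_filter]
      constructor
      · rintro ⟨h, h'⟩
        exact ⟨⟨h, h' ▸ hp⟩, h'⟩
      · rintro ⟨⟨h, _⟩, h'⟩
        exact ⟨h, h'⟩
    rw [h3]
    exact Finset.sum_le_sum_of_subset_of_nonneg (Finset.filter_subset _ _)
      fun _ _ _ => by positivity
  gcongr

open Classical in
theorem card_primesLE_le (X : ℕ) : ((primesLE K X).card : ℝ) ≤
    Module.finrank ℚ K * (Nat.primeCounting X : ℝ) + Module.finrank ℚ K * Real.sqrt X := by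
  have h1 := Finset.card_filter_add_card_filter_not (s := primesLE K X) (fun v => (qv v).Prime)
  have h2 : ((primesLE K X).filter (fun v => (qv v).Prime)).card ≤
      Module.finrank ℚ K * Nat.primeCounting X := by
    have hmaps : ∀ v ∈ (primesLE K X).filter (fun v => (qv v).Prime), qv v ∈ P X := by
      intro v hv
      rw [Finset.mem_filter, mem_primesLE] at hv
      unfold P
      rw [Finset.mem_filter, Finset.mem_range]
      exact ⟨by omega, hv.2⟩
    rw [Finset.card_eq_sum_card_fiberwise hmaps, ← card_P]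
    calc ∑ p ∈ P X, (((primesLE K X).filter (fun v => (qv v).Prime)).filter
          (fun v => qv v = p)).card ≤ ∑ _p ∈ P X, Module.finrank ℚ K := by
          refine Finset.sum_le_sum fun p hp => ?_
          exact card_norm_eq p (Finset.mem_filter.1 hp).2 _ (fun v hv => (Finset.mem_filter.1 hv).2)
      _ = Module.finrank ℚ K * (P X).card := by rw [Finset.sum_const, smul_eq_mul, mul_comm]
  have h3 := card_higher (K := K) X
  have h4 : (primesLE K X).card ≤ Module.finrank ℚ K * Nat.primeCounting X +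
      Module.finrank ℚ K * Nat.sqrt X := by
    rw [← h1]
    exact add_le_add h2 h3
  calc ((primesLE K X).card : ℝ) ≤ ((Module.finrank ℚ K * Nat.primeCounting X +
      Module.finrank ℚ K * Nat.sqrt X : ℕ) : ℝ) := by exact_mod_cast h4
    _ ≤ _ := by
      push_cast
      gcongr
      exact Real.nat_sqrt_le_real_sqrt

open Classical in
/-- **Bessel inequality** for the primes of a number field and Dirichlet characters of the norm. -/
theorem bessel_K (T : Finset (Σ q : ℕ, DirichletCharacter ℂ q))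
    (hT : ∀ j ∈ T, j.1 ≠ 0 ∧ j.2.IsPrimitive) (good : HeightOneSpectrum (𝓞 K) → Prop)
    (ε : ℝ) (hε : 0 < ε) :
    ∀ᶠ X : ℕ in atTop, ∀ F : HeightOneSpectrum (𝓞 K) → ℂ, (∀ v, ‖F v‖ ≤ 1) →
      ∑ j ∈ T, ‖(∑ v ∈ (primesLE K X).filter good, j.2 (qv v : ZMod j.1) * F v) /
          (Nat.primeCounting X : ℂ)‖ ^ 2 ≤
        Module.finrank ℚ K * ((∑ v ∈ (primesLE K X).filter good, ‖F v‖ ^ 2) /
          Nat.primeCounting X) + ε := by
  set d : ℝ := ((Module.finrank ℚ K : ℕ) : ℝ) with hd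
  have hd0 : 0 ≤ d := Nat.cast_nonneg _
  set η : ℝ := ε / (2 * (d ^ 2 + 1)) with hη
  have hη0 : 0 < η := by positivity
  -- error terms
  have he : Tendsto (fun X : ℕ => (T.card : ℝ) * (2 * d * (d * (Real.sqrt X / (Nat.primeCounting X : ℝ))) +
      (d * (Real.sqrt X / (Nat.primeCounting X : ℝ))) ^ 2)) atTop (𝓝 0) := by
    have h1 := sqrt_div_pi.const_mul d
    have h2 := ((h1.const_mul (2 * d)).add (h1.pow 2)).const_mul (T.card : ℝ)
    simpa using h2
  filter_upwards [bessel T hT η hη0, tendsto_pi.eventually_gt_atTop 0,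
    he.eventually (ge_mem_nhds (half_pos hε))] with X hX hpi hXe F hF
  set N : ℝ := ((Nat.primeCounting X : ℕ) : ℝ) with hN
  set G := (primesLE K X).filter good with hG
  set b : ℕ → ℂ := coef G F with hb
  set M : ℝ := ∑ v ∈ G, ‖F v‖ ^ 2 with hM
  have hM0 : 0 ≤ M := Finset.sum_nonneg fun _ _ => by positivity
  have h1 := hX b
  have h2 : ∑ p ∈ P X, ‖b p‖ ^ 2 ≤ d * M := sum_coef_sq X good F
  have h2' : ∑ p ∈ P X, ‖b p‖ ^ 2 ≤ d ^ 2 * N := by
    calc ∑ p ∈ P X, ‖b p‖ ^ 2 ≤ ∑ _p ∈ P X, d ^ 2 := by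
          refine Finset.sum_le_sum fun p _ => ?_
          exact pow_le_pow_left₀ (norm_nonneg _) (norm_coef_le G F hF p) 2
      _ = d ^ 2 * N := by
          rw [Finset.sum_const, nsmul_eq_mul, card_P, mul_comm]
  -- each term
  have h3 : ∀ j ∈ T, ‖(∑ v ∈ G, j.2 (qv v : ZMod j.1) * F v) / (Nat.primeCounting X : ℂ)‖ ^ 2 ≤
      ‖PS b j X‖ ^ 2 / N ^ 2 + (2 * d * (d * (Real.sqrt X / N)) + (d * (Real.sqrt X / N)) ^ 2) := by
    intro j _
    have h4 := sum_compare X good F hF j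
    have h5 : ‖PS b j X‖ ≤ d * N := by
      unfold PS
      calc ‖∑ p ∈ P X, b p * j.2 (p : ZMod j.1)‖ ≤ ∑ _p ∈ P X, d := by
            refine norm_sum_le_of_le _ fun p _ => ?_
            rw [norm_mul]
            calc ‖b p‖ * ‖j.2 (p : ZMod j.1)‖ ≤ d * 1 := by
                  gcongr
                  · exact norm_coef_le G F hF p
                  · exact DirichletCharacter.norm_le_one _ _
              _ = d := mul_one d
        _ = d * N := by rw [Finset.sum_const, nsmul_eq_mul, card_P, mul_comm]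
    rw [norm_div, Complex.norm_natCast, div_pow]
    have h6 : ‖∑ v ∈ G, j.2 (qv v : ZMod j.1) * F v‖ ^ 2 ≤ (‖PS b j X‖ + d * Real.sqrt X) ^ 2 :=
      pow_le_pow_left₀ (norm_nonneg _) h4 2
    have h7 : (‖PS b j X‖ + d * Real.sqrt X) ^ 2 ≤ ‖PS b j X‖ ^ 2 +
        (2 * (d * N) * (d * Real.sqrt X) + (d * Real.sqrt X) ^ 2) := by
      have : ‖PS b j X‖ * (d * Real.sqrt X) ≤ d * N * (d * Real.sqrt X) := by
        gcongr
      nlinarith
    calc ‖∑ v ∈ G, j.2 (qv v : ZMod j.1) * F v‖ ^ 2 / (Nat.primeCounting X : ℝ) ^ 2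
        ≤ (‖PS b j X‖ ^ 2 + (2 * (d * N) * (d * Real.sqrt X) + (d * Real.sqrt X) ^ 2)) / N ^ 2 := by
          rw [← hN]
          gcongr
          exact h6.trans h7
      _ = ‖PS b j X‖ ^ 2 / N ^ 2 + (2 * d * (d * (Real.sqrt X / N)) + (d * (Real.sqrt X / N)) ^ 2) := by
          field_simp
  have h4 : ∑ j ∈ T, ‖(∑ v ∈ G, j.2 (qv v : ZMod j.1) * F v) / (Nat.primeCounting X : ℂ)‖ ^ 2 ≤
      (∑ j ∈ T, ‖PS b j X‖ ^ 2) / N ^ 2 +
        (T.card : ℝ) * (2 * d * (d * (Real.sqrt X / N)) + (d * (Real.sqrt X / N)) ^ 2) := by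
    refine (Finset.sum_le_sum h3).trans (le_of_eq ?_)
    rw [Finset.sum_add_distrib, Finset.sum_const, nsmul_eq_mul, ← Finset.sum_div]
  have h5 : (∑ j ∈ T, ‖PS b j X‖ ^ 2) / N ^ 2 ≤ d * (M / N) + ε / 2 := by
    have h6 : (∑ j ∈ T, ‖PS b j X‖ ^ 2) ≤ N * (d * M) + η * N * (d ^ 2 * N) := by
      calc (∑ j ∈ T, ‖PS b j X‖ ^ 2) ≤ (1 + η) * N * ∑ p ∈ P X, ‖b p‖ ^ 2 := h1
        _ = N * ∑ p ∈ P X, ‖b p‖ ^ 2 + η * N * ∑ p ∈ P X, ‖b p‖ ^ 2 := by ring
        _ ≤ N * (d * M) + η * N * (d ^ 2 * N) := by gcongr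
    calc (∑ j ∈ T, ‖PS b j X‖ ^ 2) / N ^ 2 ≤ (N * (d * M) + η * N * (d ^ 2 * N)) / N ^ 2 := by
          gcongr
      _ = d * (M / N) + η * d ^ 2 := by field_simp
      _ ≤ d * (M / N) + ε / 2 := by
          have h7 : η * d ^ 2 ≤ ε / 2 := by
            rw [hη, div_mul_eq_mul_div, div_le_div_iff₀ (by positivity) (by norm_num)]
            nlinarith [sq_nonneg d]
          linarith
  linarith

open Classical in
/-- The mean square is at most `d ^ 2` asymptotically. -/
theorem mean_square_le (good : HeightOneSpectrum (𝓞 K) → Prop) (ε : ℝ) (hε : 0 < ε) :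
    ∀ᶠ X : ℕ in atTop, ∀ F : HeightOneSpectrum (𝓞 K) → ℂ, (∀ v, ‖F v‖ ≤ 1) →
      Module.finrank ℚ K * ((∑ v ∈ (primesLE K X).filter good, ‖F v‖ ^ 2) /
          Nat.primeCounting X) ≤ (Module.finrank ℚ K : ℝ) ^ 2 + ε := by
  set d : ℝ := ((Module.finrank ℚ K : ℕ) : ℝ) with hd
  have hd0 : 0 ≤ d := Nat.cast_nonneg _
  have h1 := sqrt_div_pi.const_mul (d * d)
  rw [mul_zero] at h1
  filter_upwards [h1.eventually (ge_mem_nhds hε), tendsto_pi.eventually_gt_atTop 0] with X hX hpi F hF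
  have h2 : ∑ v ∈ (primesLE K X).filter good, ‖F v‖ ^ 2 ≤ d * (Nat.primeCounting X : ℝ) +
      d * Real.sqrt X := by
    calc ∑ v ∈ (primesLE K X).filter good, ‖F v‖ ^ 2
        ≤ ∑ _v ∈ (primesLE K X).filter good, (1 : ℝ) := by
          refine Finset.sum_le_sum fun v _ => ?_
          exact pow_le_one₀ (norm_nonneg _) (hF v)
      _ = (((primesLE K X).filter good).card : ℝ) := by simp
      _ ≤ ((primesLE K X).card : ℝ) := by
          exact_mod_cast Finset.card_le_card (Finset.filter_subset _ _)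
      _ ≤ _ := card_primesLE_le X
  calc d * ((∑ v ∈ (primesLE K X).filter good, ‖F v‖ ^ 2) / Nat.primeCounting X)
      ≤ d * ((d * (Nat.primeCounting X : ℝ) + d * Real.sqrt X) / Nat.primeCounting X) := by gcongr
    _ = d ^ 2 + d * d * (Real.sqrt X / Nat.primeCounting X) := by field_simp
    _ ≤ d ^ 2 + ε := by linarith

theorem bessel_K' (T : Finset (Σ q : ℕ, DirichletCharacter ℂ q))
    (hT : ∀ j ∈ T, j.1 ≠ 0 ∧ j.2.IsPrimitive) (good : HeightOneSpectrum (𝓞 K) → Prop)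
    [DecidablePred good] (ε : ℝ) (hε : 0 < ε) :
    ∀ᶠ X : ℕ in atTop, ∀ F : HeightOneSpectrum (𝓞 K) → ℂ, (∀ v, ‖F v‖ ≤ 1) →
      ∑ j ∈ T, ‖(∑ v ∈ (primesLE K X).filter good, j.2 (qv v : ZMod j.1) * F v) /
          (Nat.primeCounting X : ℂ)‖ ^ 2 ≤
        Module.finrank ℚ K * ((∑ v ∈ (primesLE K X).filter good, ‖F v‖ ^ 2) /
          Nat.primeCounting X) + ε := by
  convert bessel_K T hT good ε hε

theorem mean_square_le' (good : HeightOneSpectrum (𝓞 K) → Prop) [DecidablePred good]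
    (ε : ℝ) (hε : 0 < ε) :
    ∀ᶠ X : ℕ in atTop, ∀ F : HeightOneSpectrum (𝓞 K) → ℂ, (∀ v, ‖F v‖ ≤ 1) →
      Module.finrank ℚ K * ((∑ v ∈ (primesLE K X).filter good, ‖F v‖ ^ 2) /
          Nat.primeCounting X) ≤ (Module.finrank ℚ K : ℝ) ^ 2 + ε := by
  convert mean_square_le (K := K) good ε hε

end

end Pool.Agent.Helper7.ST
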