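import Pool.Agent.Helper7.ST.Residue

set_option autoImplicit false

/-!
Descent of averages over the primes of a number field `K` from the fields `K L`, `L` abelian over
the rationals of prime conductor.
-/

namespace Pool.Agent.Helper7.ST

open Filter Topology Finset NumberField IsDedekindDomain
open Pool.Agent.Helper4.ST (PS coef qv primesLE mem_primesLE qv_coprime)

universe u

section

variable {K : Type u} [Field K] [NumberField K]

open Classical in
/-- The nonprincipal characters modulo `q`, as a set of characters. -/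
noncomputable def TqD (q : ℕ) : Finset (Σ q : ℕ, DirichletCharacter ℂ q) :=
  if h : q = 0 then ∅ else
    haveI : NeZero q := ⟨h⟩
    (nonprin q).map ⟨Sigma.mk q, sigma_mk_injective⟩

private theorem hTqmem (q : ℕ) (hq : q.Prime) (j : Σ q : ℕ, DirichletCharacter ℂ q)
    (hj : j ∈ TqD q) : j.1 = q ∧ j.2.IsPrimitive := by
  unfold TqD at hj
  rw [dif_neg hq.ne_zero, Finset.mem_map] at hj
  obtain ⟨χ, hχ, rfl⟩ := hj
  have hNZ : NeZero q := ⟨hq.ne_zero⟩
  have hne : χ ≠ 1 := mem_nonprin.1 hχ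
  have hp := primitive_of_prime hq hne
  exact ⟨rfl, hp⟩

private theorem hdisj (Q : Finset ℕ) (hQ : ∀ q ∈ Q, q.Prime) :
    (Q : Set ℕ).PairwiseDisjoint TqD := by
  intro q hq q' hq' hne
  rw [Function.onFun, Finset.disjoint_left]
  intro j hj hj'
  have e1 := (hTqmem q (hQ q hq) j hj).1
  have e2 := (hTqmem q' (hQ q' hq') j hj').1
  exact hne (e1.symm.trans e2)

open Classical in
/-- Average over the primes of `K`. -/
noncomputable def avK (good : HeightOneSpectrum (𝓞 K) → Prop) (F : HeightOneSpectrum (𝓞 K) → ℂ)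
    (X : ℕ) : ℂ :=
  (∑ v ∈ (primesLE K X).filter good, F v) / (Nat.primeCounting X : ℂ)

open Classical in
/-- Average over the primes `v` of `K` with `q_v mod q` in `H`. -/
noncomputable def avH (good : HeightOneSpectrum (𝓞 K) → Prop) (F : HeightOneSpectrum (𝓞 K) → ℂ)
    (q : ℕ) (H : Subgroup (ZMod q)ˣ) (X : ℕ) : ℂ :=
  (H.index : ℂ) * (∑ v ∈ (primesLE K X).filter
    (fun v => good v ∧ ∃ h ∈ H, (qv v : ZMod q) = ((h : (ZMod q)ˣ) : ZMod q)), F v) /
      (Nat.primeCounting X : ℂ)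

open Classical in
/-- Average over the primes of `K` prime to `q`. -/
noncomputable def avP (good : HeightOneSpectrum (𝓞 K) → Prop) (F : HeightOneSpectrum (𝓞 K) → ℂ)
    (q : ℕ) (X : ℕ) : ℂ :=
  (∑ v ∈ (primesLE K X).filter (fun v => good v ∧ (q : 𝓞 K) ∉ v.asIdeal), F v) /
    (Nat.primeCounting X : ℂ)

theorem avP_sub (good : HeightOneSpectrum (𝓞 K) → Prop) (F : HeightOneSpectrum (𝓞 K) → ℂ)
    (hF : ∀ v, ‖F v‖ ≤ 1) {q : ℕ} (hq : q.Prime) :
    Tendsto (fun X => avK good F X - avP good F q X) atTop (𝓝 0) := by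
  classical
  have hfin : {v : HeightOneSpectrum (𝓞 K) | v.asIdeal ∣ Ideal.span {(q : 𝓞 K)}}.Finite := by
    apply Ideal.finite_factors
    intro h
    rw [Ideal.zero_eq_bot, Ideal.span_singleton_eq_bot] at h
    exact hq.ne_zero (by exact_mod_cast h)
  set C : ℕ := hfin.toFinset.card with hC
  have hb : ∀ X : ℕ, ‖avK good F X - avP good F q X‖ ≤ C / (Nat.primeCounting X : ℝ) := by
    intro X
    unfold avK avP
    rw [← sub_div, norm_div, Complex.norm_natCast]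
    apply div_le_div_of_nonneg_right _ (Nat.cast_nonneg _)
    have h1 : ∑ v ∈ (primesLE K X).filter good, F v -
        ∑ v ∈ (primesLE K X).filter (fun v => good v ∧ (q : 𝓞 K) ∉ v.asIdeal), F v =
        ∑ v ∈ (primesLE K X).filter (fun v => good v ∧ ¬ (q : 𝓞 K) ∉ v.asIdeal), F v := by
      rw [← Finset.filter_filter, ← Finset.filter_filter,
        ← Finset.sum_filter_add_sum_filter_not ((primesLE K X).filter good)
          (fun v => (q : 𝓞 K) ∉ v.asIdeal)]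
      ring
    rw [h1]
    calc ‖∑ v ∈ (primesLE K X).filter (fun v => good v ∧ ¬ (q : 𝓞 K) ∉ v.asIdeal), F v‖
        ≤ ∑ _v ∈ (primesLE K X).filter (fun v => good v ∧ ¬ (q : 𝓞 K) ∉ v.asIdeal), (1 : ℝ) :=
          norm_sum_le_of_le _ fun v _ => hF v
      _ = (((primesLE K X).filter (fun v => good v ∧ ¬ (q : 𝓞 K) ∉ v.asIdeal)).card : ℝ) := by
          simp
      _ ≤ C := by
          rw [hC]
          norm_cast
          apply Finset.card_le_card
          intro v hv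
          rw [Finset.mem_filter] at hv
          rw [Set.Finite.mem_toFinset, Set.mem_ofPred_eq, Ideal.dvd_span_singleton]
          exact not_not.1 hv.2.2
  have h0 : Tendsto (fun X : ℕ => (C : ℝ) / (Nat.primeCounting X : ℝ)) atTop (𝓝 0) :=
    tendsto_pi.const_div_atTop _
  exact squeeze_zero_norm hb h0

theorem avK_bdd (good : HeightOneSpectrum (𝓞 K) → Prop) (F : HeightOneSpectrum (𝓞 K) → ℂ)
    (hF : ∀ v, ‖F v‖ ≤ 1) :
    ∀ᶠ X : ℕ in atTop, ‖avK good F X‖ ≤ 2 * (Module.finrank ℚ K : ℝ) := by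
  classical
  set d : ℝ := (Module.finrank ℚ K : ℝ) with hd
  have hd0 : 0 ≤ d := Nat.cast_nonneg _
  filter_upwards [sqrt_div_pi.eventually (ge_mem_nhds one_pos),
    tendsto_pi.eventually_gt_atTop 0] with X h1 h2
  unfold avK
  rw [norm_div, Complex.norm_natCast, div_le_iff₀ h2]
  have h3 : ‖∑ v ∈ (primesLE K X).filter good, F v‖ ≤ ((primesLE K X).card : ℝ) := by
    calc ‖∑ v ∈ (primesLE K X).filter good, F v‖
        ≤ ∑ _v ∈ (primesLE K X).filter good, (1 : ℝ) := norm_sum_le_of_le _ fun v _ => hF v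
      _ = (((primesLE K X).filter good).card : ℝ) := by simp
      _ ≤ _ := by exact_mod_cast Finset.card_le_card (Finset.filter_subset _ _)
  have h4 := card_primesLE_le (K := K) X
  rw [← hd] at h4
  rw [div_le_one h2] at h1
  have h5 : d * Real.sqrt X ≤ d * (Nat.primeCounting X : ℝ) := mul_le_mul_of_nonneg_left h1 hd0
  linarith

/-- The Bessel inequality for the averages. -/
theorem bessel_av (good : HeightOneSpectrum (𝓞 K) → Prop) (Q : Finset ℕ)
    (hQ : ∀ q ∈ Q, q.Prime) (H : ∀ q : ℕ, Subgroup (ZMod q)ˣ) (δ : ℝ) (hδ : 0 < δ) :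
    ∀ᶠ X : ℕ in atTop, ∀ F : HeightOneSpectrum (𝓞 K) → ℂ, (∀ v, ‖F v‖ ≤ 1) →
      ∑ q ∈ Q, ‖avH good F q (H q) X - avP good F q X‖ ^ 2 / ((H q).index : ℝ) ≤
        (Module.finrank ℚ K : ℝ) ^ 2 + δ := by
  classical
  set T : Finset (Σ q : ℕ, DirichletCharacter ℂ q) := Q.biUnion TqD with hT
  have hTprim : ∀ j ∈ T, j.1 ≠ 0 ∧ j.2.IsPrimitive := by
    intro j hj
    rw [hT, Finset.mem_biUnion] at hj
    obtain ⟨q, hq, hj⟩ := hj
    obtain ⟨h1, h2⟩ := hTqmem q (hQ q hq) j hj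
    exact ⟨by rw [h1]; exact (hQ q hq).ne_zero, h2⟩
  filter_upwards [bessel_K' (K := K) T hTprim good (δ / 2) (half_pos hδ),
    mean_square_le' (K := K) good (δ / 2) (half_pos hδ),
    tendsto_pi.eventually_gt_atTop 0] with X g1 g2 hpi F hF
  have g4 := g1 F hF
  have g5 := g2 F hF
  have key : ∀ q ∈ Q, ‖avH good F q (H q) X - avP good F q X‖ ^ 2 / ((H q).index : ℝ) ≤
      ∑ j ∈ TqD q, ‖(∑ v ∈ (primesLE K X).filter good, j.2 (qv v : ZMod j.1) * F v) /
          (Nat.primeCounting X : ℂ)‖ ^ 2 := by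
    intro q hq
    have hNZ : NeZero q := ⟨(hQ q hq).ne_zero⟩
    set S : ℝ := ∑ χ ∈ nonprin q,
      ‖∑ v ∈ (primesLE K X).filter good, χ (qv v : ZMod q) * F v‖ ^ 2 with hS
    have hS0 : 0 ≤ S := Finset.sum_nonneg fun _ _ => by positivity
    have h1 := coset_bound X good F q (Real.sqrt S) (Real.sqrt_nonneg _)
      (by rw [Real.sq_sqrt hS0]) (H q) 1
    have h2 : avH good F q (H q) X - avP good F q X =
        ((H q).index * ∑ v ∈ (primesLE K X).filter
        (fun v => good v ∧ ∃ h ∈ H q, (qv v : ZMod q) = ((1 * h : (ZMod q)ˣ) : ZMod q)), F v -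
        ∑ v ∈ (primesLE K X).filter (fun v => good v ∧ (q : 𝓞 K) ∉ v.asIdeal), F v) /
          (Nat.primeCounting X : ℂ) := by
      unfold avH avP
      rw [← sub_div]
      simp only [one_mul]
      congr!
    have hm : (0 : ℝ) < (H q).index := by
      exact_mod_cast Nat.pos_of_ne_zero (Subgroup.index_ne_zero_of_finite)
    have h3 : ∑ j ∈ TqD q, ‖(∑ v ∈ (primesLE K X).filter good, j.2 (qv v : ZMod j.1) * F v) /
          (Nat.primeCounting X : ℂ)‖ ^ 2 = S / (Nat.primeCounting X : ℝ) ^ 2 := by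
      unfold TqD
      rw [dif_neg (hQ q hq).ne_zero, Finset.sum_map, hS, Finset.sum_div]
      refine Finset.sum_congr rfl fun j _ => ?_
      rw [norm_div, Complex.norm_natCast, div_pow]
      rfl
    rw [h3, h2, norm_div, Complex.norm_natCast, div_pow, div_div, div_le_div_iff₀ (by positivity)
      (by positivity)]
    have h4 := pow_le_pow_left₀ (norm_nonneg _) h1 2
    rw [mul_pow, Real.sq_sqrt hm.le, Real.sq_sqrt hS0] at h4
    have h5 : (0 : ℝ) ≤ (Nat.primeCounting X : ℝ) ^ 2 := by positivity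
    have h6 := mul_le_mul_of_nonneg_right h4 h5
    refine le_trans ?_ (h6.trans (le_of_eq (by ring)))
    apply le_of_eq
    rfl
  calc _ ≤ ∑ q ∈ Q, ∑ j ∈ TqD q, ‖(∑ v ∈ (primesLE K X).filter good,
        j.2 (qv v : ZMod j.1) * F v) / (Nat.primeCounting X : ℂ)‖ ^ 2 := Finset.sum_le_sum key
    _ = ∑ j ∈ T, ‖(∑ v ∈ (primesLE K X).filter good, j.2 (qv v : ZMod j.1) * F v) /
          (Nat.primeCounting X : ℂ)‖ ^ 2 := by
        rw [hT, Finset.sum_biUnion (hdisj Q hQ)]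
    _ ≤ _ := by linarith

/-- The inequality for a limit point. -/
theorem bessel_lim (good : HeightOneSpectrum (𝓞 K) → Prop) (F : HeightOneSpectrum (𝓞 K) → ℂ)
    (hF : ∀ v, ‖F v‖ ≤ 1) (H : ∀ q : ℕ, Subgroup (ZMod q)ˣ) (c : ℕ → ℂ) (Q : Finset ℕ)
    (hQ : ∀ q ∈ Q, q.Prime ∧ Tendsto (avH good F q (H q)) atTop (𝓝 (c q)))
    (g : Filter ℕ) [NeBot g] (hg : g ≤ atTop) (a : ℂ) (ha : Tendsto (avK good F) g (𝓝 a)) :
    ∑ q ∈ Q, ‖c q - a‖ ^ 2 / ((H q).index : ℝ) ≤ (Module.finrank ℚ K : ℝ) ^ 2 := by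
  have h1 : Tendsto (fun X => ∑ q ∈ Q, ‖avH good F q (H q) X - avP good F q X‖ ^ 2 /
      ((H q).index : ℝ)) g (𝓝 (∑ q ∈ Q, ‖c q - a‖ ^ 2 / ((H q).index : ℝ))) := by
    apply tendsto_finsetSum
    intro q hq
    have h2 : Tendsto (avP good F q) g (𝓝 a) := by
      have h3 := (avP_sub good F hF (hQ q hq).1).mono_left hg
      have h4 := ha.sub h3
      simpa using h4
    exact (((((hQ q hq).2.mono_left hg).sub h2).norm).pow 2).div_const _
  apply le_of_forall_pos_le_add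
  intro δ hδ
  refine le_of_tendsto h1 ?_
  have h2 := (bessel_av good Q (fun q hq => (hQ q hq).1) H δ hδ).filter_mono hg
  filter_upwards [h2] with X hX
  exact hX F hF

private theorem lim_unique {Q : Set ℕ} {m : ℕ → ℝ} (hm : ∀ q, 0 ≤ 1 / m q)
    (hdiv : ¬ Summable fun q : Q => 1 / m q) {c : ℕ → ℂ} {a a' : ℂ} {C : ℝ}
    (h : ∀ S : Finset ℕ, (S : Set ℕ) ⊆ Q → ∑ q ∈ S, ‖c q - a‖ ^ 2 / m q ≤ C)
    (h' : ∀ S : Finset ℕ, (S : Set ℕ) ⊆ Q → ∑ q ∈ S, ‖c q - a'‖ ^ 2 / m q ≤ C) : a = a' := by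
  classical
  by_contra hne
  apply hdiv
  have hpos : 0 < ‖a - a'‖ ^ 2 := by
    have : 0 < ‖a - a'‖ := norm_pos_iff.2 (sub_ne_zero.2 hne)
    positivity
  refine summable_of_sum_le (c := 4 * C / ‖a - a'‖ ^ 2) (fun q => hm q) ?_
  intro u
  rw [le_div_iff₀ hpos]
  set S : Finset ℕ := u.map ⟨Subtype.val, Subtype.val_injective⟩ with hS
  have hSQ : (S : Set ℕ) ⊆ Q := by
    intro q hq
    rw [hS, Finset.mem_coe, Finset.mem_map] at hq
    obtain ⟨x, _, rfl⟩ := hq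
    exact x.2
  have h1 := h S hSQ
  have h2 := h' S hSQ
  have h3 : ∑ q ∈ u, 1 / m (q : ℕ) = ∑ q ∈ S, 1 / m q := by
    rw [hS, Finset.sum_map]
    rfl
  rw [h3, Finset.sum_mul]
  calc ∑ q ∈ S, 1 / m q * ‖a - a'‖ ^ 2
      ≤ ∑ q ∈ S, (2 * (‖c q - a‖ ^ 2 / m q) + 2 * (‖c q - a'‖ ^ 2 / m q)) := by
        refine Finset.sum_le_sum fun q _ => ?_
        have h4 : ‖a - a'‖ ≤ ‖c q - a‖ + ‖c q - a'‖ := by
          have h5 := norm_sub_le (c q - a') (c q - a)
          rw [show c q - a' - (c q - a) = a - a' by ring] at h5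
          linarith
        have h6 : ‖a - a'‖ ^ 2 ≤ 2 * ‖c q - a‖ ^ 2 + 2 * ‖c q - a'‖ ^ 2 := by
          have h7 := norm_nonneg (a - a')
          nlinarith [sq_nonneg (‖c q - a‖ - ‖c q - a'‖), norm_nonneg (c q - a),
            norm_nonneg (c q - a')]
        have h8 := mul_le_mul_of_nonneg_left h6 (hm q)
        refine h8.trans (le_of_eq ?_)
        ring
    _ = 2 * ∑ q ∈ S, ‖c q - a‖ ^ 2 / m q + 2 * ∑ q ∈ S, ‖c q - a'‖ ^ 2 / m q := by
        rw [Finset.sum_add_distrib, Finset.mul_sum, Finset.mul_sum]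
    _ ≤ 4 * C := by linarith

/-- **Descent** for functions bounded by `1`. -/
theorem descent_one (good : HeightOneSpectrum (𝓞 K) → Prop) (F : HeightOneSpectrum (𝓞 K) → ℂ)
    (hF : ∀ v, ‖F v‖ ≤ 1) (Q : Set ℕ) (H : ∀ q : ℕ, Subgroup (ZMod q)ˣ) (c : ℕ → ℂ)
    (hQ : ∀ q ∈ Q, q.Prime) (hdiv : ¬ Summable fun q : Q => 1 / ((H q).index : ℝ))
    (hc : ∀ q ∈ Q, Tendsto (avH good F q (H q)) atTop (𝓝 (c q))) :
    ∃ a : ℂ, Tendsto (avK good F) atTop (𝓝 a) ∧
      ∀ S : Finset ℕ, (S : Set ℕ) ⊆ Q →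
        ∑ q ∈ S, ‖c q - a‖ ^ 2 / ((H q).index : ℝ) ≤ (Module.finrank ℚ K : ℝ) ^ 2 := by
  set R : ℝ := 2 * (Module.finrank ℚ K : ℝ) with hR
  have hlim : ∀ g : Ultrafilter ℕ, (g : Filter ℕ) ≤ atTop →
      ∃ a : ℂ, Tendsto (avK good F) g (𝓝 a) := by
    intro g hg
    have h1 : (Filter.map (avK good F) (g : Filter ℕ)) ≤ 𝓟 (Metric.closedBall (0 : ℂ) R) := by
      rw [le_principal_iff, Filter.mem_map]
      have h2 := (avK_bdd good F hF).filter_mono hg
      filter_upwards [h2] with X hX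
      rw [Set.mem_preimage, mem_closedBall_zero_iff]
      exact hX
    obtain ⟨a, _, ha⟩ := (isCompact_closedBall (0 : ℂ) R).ultrafilter_le_nhds
      (g.map (avK good F)) (by rwa [Ultrafilter.coe_map])
    exact ⟨a, ha⟩
  have hineq : ∀ (g : Ultrafilter ℕ) (a : ℂ), (g : Filter ℕ) ≤ atTop →
      Tendsto (avK good F) g (𝓝 a) → ∀ S : Finset ℕ, (S : Set ℕ) ⊆ Q →
        ∑ q ∈ S, ‖c q - a‖ ^ 2 / ((H q).index : ℝ) ≤ (Module.finrank ℚ K : ℝ) ^ 2 := by
    intro g a hg ha S hS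
    exact bessel_lim good F hF H c S (fun q hq => ⟨hQ q (hS hq), hc q (hS hq)⟩) g hg a ha
  obtain ⟨a, ha⟩ := hlim (Ultrafilter.of atTop) (Ultrafilter.of_le atTop)
  have hia := hineq _ a (Ultrafilter.of_le atTop) ha
  refine ⟨a, ?_, hia⟩
  rw [tendsto_iff_ultrafilter]
  intro g hg
  obtain ⟨a', ha'⟩ := hlim g hg
  have hia' := hineq g a' hg ha'
  have : a = a' := lim_unique (fun q => by positivity) hdiv hia hia'
  rw [this]
  exact ha'

end

end Pool.Agent.Helper7.ST
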