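import Pool.Agent.Helper4.ST.Main
import Pool.Agent.Helper6.PNT

set_option autoImplicit false

/-!
Orthogonality of distinct primitive Dirichlet characters over the primes, and the resulting Bessel
inequality.
-/

namespace Pool.Agent.Helper7.ST

open Filter Topology Finset
open Pool.Agent.Helper4.ST (PS)

/-- primes up to `X` -/
def P (X : ℕ) : Finset ℕ := (range (X + 1)).filter Nat.Prime

theorem card_P (X : ℕ) : (P X).card = Nat.primeCounting X := by
  unfold P
  rw [Nat.primeCounting, Nat.primeCounting', Nat.count_eq_card_filter_range]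

theorem tendsto_pi : Tendsto (fun X : ℕ => (Nat.primeCounting X : ℝ)) atTop atTop := by
  exact tendsto_natCast_atTop_atTop.comp Nat.tendsto_primeCounting

/-- The sum of a non-principal character over the primes. -/
theorem char_sum_tendsto {m : ℕ} [NeZero m] (η : DirichletCharacter ℂ m) (hη : η ≠ 1) :
    Tendsto (fun X : ℕ => (∑ p ∈ P X, η (p : ZMod m)) / (Nat.primeCounting X : ℂ)) atTop (𝓝 0) := by
  have h1 : ∀ X : ℕ, (∑ p ∈ P X, η (p : ZMod m)) / (Nat.primeCounting X : ℂ) =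
      ∑ a : ZMod m, η a * ((((((range (X + 1)).filter
        (fun p : ℕ => p.Prime ∧ (p : ZMod m) = a)).card : ℝ) / (Nat.primeCounting X : ℝ) : ℝ)) : ℂ) := by
    intro X
    rw [← Finset.sum_fiberwise_of_maps_to (s := P X) (t := Finset.univ)
      (g := fun p : ℕ => (p : ZMod m)) (fun _ _ => Finset.mem_univ _), Finset.sum_div]
    refine Finset.sum_congr rfl fun a _ => ?_
    have h2 : (P X).filter (fun p : ℕ => (p : ZMod m) = a) =
        (range (X + 1)).filter (fun p : ℕ => p.Prime ∧ (p : ZMod m) = a) := by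
      unfold P
      rw [Finset.filter_filter]
    have h3 : ∑ p ∈ (P X).filter (fun p : ℕ => (p : ZMod m) = a), η (p : ZMod m) =
        ((((range (X + 1)).filter (fun p : ℕ => p.Prime ∧ (p : ZMod m) = a)).card : ℕ) : ℂ) * η a := by
      rw [← h2, ← nsmul_eq_mul, ← Finset.sum_const]
      refine Finset.sum_congr rfl fun p hp => ?_
      rw [(Finset.mem_filter.1 hp).2]
    rw [h3]
    push_cast
    ring
  have h4 : ∑ a : ZMod m, η a * ((1 / (m.totient : ℝ) : ℝ) : ℂ) = 0 := by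
    rw [← Finset.sum_mul, MulChar.sum_eq_zero_of_ne_one hη, zero_mul]
  simp_rw [h1]
  rw [← h4]
  apply tendsto_finsetSum
  intro a _
  by_cases ha : IsUnit a
  · apply Tendsto.const_mul
    exact (Complex.continuous_ofReal.tendsto _).comp (Pool.Agent.Helper6.prime_ap_density ha)
  · rw [MulChar.map_nonunit η ha]
    simp

/-- The Gram matrix. -/
noncomputable def Gram (j k : Σ q : ℕ, DirichletCharacter ℂ q) (X : ℕ) : ℂ :=
  ∑ p ∈ P X, (j.2 (p : ZMod j.1)) * (starRingEnd ℂ) (k.2 (p : ZMod k.1))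

theorem norm_Gram_le (j k : Σ q : ℕ, DirichletCharacter ℂ q) (X : ℕ) :
    ‖Gram j k X‖ ≤ Nat.primeCounting X := by
  unfold Gram
  rw [← card_P]
  refine (norm_sum_le _ _).trans ?_
  calc ∑ p ∈ P X, ‖(j.2 (p : ZMod j.1)) * (starRingEnd ℂ) (k.2 (p : ZMod k.1))‖
      ≤ ∑ _p ∈ P X, (1 : ℝ) := by
        refine Finset.sum_le_sum fun p _ => ?_
        rw [norm_mul, RCLike.norm_conj]
        exact mul_le_one₀ (DirichletCharacter.norm_le_one _ _) (norm_nonneg _)
          (DirichletCharacter.norm_le_one _ _)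
    _ = (P X).card := by simp

/-- Distinct primitive characters stay distinct at a common level. -/
theorem changeLevel_ne {q r m : ℕ} [NeZero m] (hq : q ∣ m) (hr : r ∣ m)
    (χ : DirichletCharacter ℂ q) (ψ : DirichletCharacter ℂ r) (hχ : χ.IsPrimitive)
    (hψ : ψ.IsPrimitive)
    (h : DirichletCharacter.changeLevel hq χ = DirichletCharacter.changeLevel hr ψ) :
    (⟨q, χ⟩ : Σ q : ℕ, DirichletCharacter ℂ q) = ⟨r, ψ⟩ := by
  have h1 : q = r := by
    have h2 := DirichletCharacter.conductor_changeLevel χ hq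
    have h3 := DirichletCharacter.conductor_changeLevel ψ hr
    rw [h] at h2
    rw [DirichletCharacter.isPrimitive_def] at hχ hψ
    rw [← hχ, ← h2, h3, hψ]
  subst h1
  rw [DirichletCharacter.changeLevel_injective hq h]

theorem Gram_tendsto {j k : Σ q : ℕ, DirichletCharacter ℂ q} (hj0 : j.1 ≠ 0) (hk0 : k.1 ≠ 0)
    (hj : j.2.IsPrimitive) (hk : k.2.IsPrimitive) (hjk : j ≠ k) :
    Tendsto (fun X : ℕ => Gram j k X / (Nat.primeCounting X : ℂ)) atTop (𝓝 0) := by
  obtain ⟨q, χ⟩ := j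
  obtain ⟨r, ψ⟩ := k
  simp only at hj0 hk0 hj hk
  set m : ℕ := q * r with hm
  have hNZ : NeZero m := ⟨mul_ne_zero hj0 hk0⟩
  have hq : q ∣ m := Dvd.intro _ rfl
  have hr : r ∣ m := Dvd.intro_left _ rfl
  set η : DirichletCharacter ℂ m := DirichletCharacter.changeLevel hq χ *
    (DirichletCharacter.changeLevel hr ψ)⁻¹ with hη
  have hη1 : η ≠ 1 := by
    intro h
    rw [hη, mul_inv_eq_one] at h
    exact hjk (changeLevel_ne hq hr χ ψ hj hk h)
  have hlim := char_sum_tendsto η hη1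
  have hval : ∀ p : ℕ, p.Coprime m → χ (p : ZMod q) * (starRingEnd ℂ) (ψ (p : ZMod r)) =
      η (p : ZMod m) := by
    intro p hp
    have hu : IsUnit (p : ZMod m) := (ZMod.isUnit_iff_coprime p m).2 hp
    have h1 : DirichletCharacter.changeLevel hq χ (p : ZMod m) = χ (p : ZMod q) := by
      have := DirichletCharacter.changeLevel_eq_cast_of_dvd χ hq hu.unit
      rw [IsUnit.unit_spec] at this
      rw [this]
      congr 1
      rw [ZMod.cast_natCast hq]
    have h2 : DirichletCharacter.changeLevel hr ψ (p : ZMod m) = ψ (p : ZMod r) := by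
      have := DirichletCharacter.changeLevel_eq_cast_of_dvd ψ hr hu.unit
      rw [IsUnit.unit_spec] at this
      rw [this]
      congr 1
      rw [ZMod.cast_natCast hr]
    rw [hη, MulChar.mul_apply, h1, ← h2]
    congr 1
    rw [← MulChar.star_apply']
    rfl
  have hdiff : ∀ X : ℕ, ‖Gram ⟨q, χ⟩ ⟨r, ψ⟩ X / (Nat.primeCounting X : ℂ) -
      (∑ p ∈ P X, η (p : ZMod m)) / (Nat.primeCounting X : ℂ)‖ ≤ 2 * m / (Nat.primeCounting X : ℝ) := by
    intro X
    rw [← sub_div, norm_div, Complex.norm_natCast]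
    gcongr
    unfold Gram
    rw [← Finset.sum_sub_distrib]
    simp only
    rw [← Finset.sum_filter_add_sum_filter_not (P X) (fun p => p ≤ m)]
    have h0 : ∑ p ∈ (P X).filter (fun p => ¬ p ≤ m), (χ (p : ZMod q) *
        (starRingEnd ℂ) (ψ (p : ZMod r)) - η (p : ZMod m)) = 0 := by
      apply Finset.sum_eq_zero
      intro p hp
      rw [Finset.mem_filter] at hp
      have hpp : p.Prime := (Finset.mem_filter.1 hp.1).2
      have : p.Coprime m := by
        rw [hpp.coprime_iff_not_dvd]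
        intro h
        exact hp.2 (Nat.le_of_dvd (Nat.pos_of_ne_zero (NeZero.ne m)) h)
      rw [hval p this, sub_self]
    rw [h0, add_zero]
    refine (norm_sum_le _ _).trans ?_
    calc ∑ p ∈ (P X).filter (fun p => p ≤ m), ‖χ (p : ZMod q) *
          (starRingEnd ℂ) (ψ (p : ZMod r)) - η (p : ZMod m)‖
        ≤ ∑ _p ∈ (P X).filter (fun p => p ≤ m), (2 : ℝ) := by
          refine Finset.sum_le_sum fun p _ => ?_
          refine (norm_sub_le _ _).trans ?_
          have h1 : ‖χ (p : ZMod q) * (starRingEnd ℂ) (ψ (p : ZMod r))‖ ≤ 1 := by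
            rw [norm_mul, RCLike.norm_conj]
            exact mul_le_one₀ (DirichletCharacter.norm_le_one _ _) (norm_nonneg _)
              (DirichletCharacter.norm_le_one _ _)
          have h2 : ‖η (p : ZMod m)‖ ≤ 1 := DirichletCharacter.norm_le_one _ _
          linarith
      _ = ((P X).filter (fun p => p ≤ m)).card * 2 := by simp
      _ ≤ m * 2 := by
          have : ((P X).filter (fun p => p ≤ m)).card ≤ m := by
            calc ((P X).filter (fun p => p ≤ m)).card ≤ (Finset.Icc 1 m).card := by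
                  apply Finset.card_le_card
                  intro p hp
                  rw [Finset.mem_filter] at hp
                  rw [Finset.mem_Icc]
                  exact ⟨(Finset.mem_filter.1 hp.1).2.one_le, hp.2⟩
              _ = m := by simp
          have h3 : (((P X).filter (fun p => p ≤ m)).card : ℝ) ≤ m := by exact_mod_cast this
          linarith
      _ = 2 * m := by ring
  have hz : Tendsto (fun X : ℕ => 2 * (m : ℝ) / (Nat.primeCounting X : ℝ)) atTop (𝓝 0) :=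
    tendsto_const_nhds.div_atTop tendsto_pi
  have h5 := squeeze_zero_norm hdiff hz
  have h6 := h5.add hlim
  rw [add_zero] at h6
  refine h6.congr fun X => ?_
  ring

/-- **Bessel inequality over the primes** for distinct primitive characters. -/
theorem bessel (T : Finset (Σ q : ℕ, DirichletCharacter ℂ q))
    (hT : ∀ j ∈ T, j.1 ≠ 0 ∧ j.2.IsPrimitive) (ε : ℝ) (hε : 0 < ε) :
    ∀ᶠ X : ℕ in atTop, ∀ b : ℕ → ℂ,
      ∑ j ∈ T, ‖PS b j X‖ ^ 2 ≤ (1 + ε) * Nat.primeCounting X * ∑ p ∈ P X, ‖b p‖ ^ 2 := by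
  classical
  set δ : ℝ := ε / (T.card + 1) with hδ
  have hc0 : (0 : ℝ) < T.card + 1 := by positivity
  have hδ0 : 0 < δ := by positivity
  have h1 : ∀ᶠ X : ℕ in atTop, ∀ jk ∈ T ×ˢ T, jk.1 ≠ jk.2 →
      ‖Gram jk.1 jk.2 X / (Nat.primeCounting X : ℂ)‖ ≤ δ := by
    rw [Filter.eventually_all_finset]
    intro jk hjk
    rw [Finset.mem_product] at hjk
    by_cases h : jk.1 = jk.2
    · exact Eventually.of_forall fun X h' => absurd h h'
    · have h2 := (Gram_tendsto (hT _ hjk.1).1 (hT _ hjk.2).1 (hT _ hjk.1).2 (hT _ hjk.2).2 h).norm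
      rw [norm_zero] at h2
      filter_upwards [h2.eventually (ge_mem_nhds hδ0)] with X hX _
      exact hX
  filter_upwards [h1, tendsto_pi.eventually_gt_atTop 0] with X hX hpi b
  set S : (Σ q : ℕ, DirichletCharacter ℂ q) → ℂ := fun j => PS b j X with hS
  set N : ℝ := ((Nat.primeCounting X : ℕ) : ℝ) with hN
  set A : ℝ := ∑ j ∈ T, ‖S j‖ ^ 2 with hA
  have hA0 : 0 ≤ A := Finset.sum_nonneg fun _ _ => by positivity
  -- the dual sum
  set D : ℕ → ℂ := fun p => ∑ j ∈ T, (starRingEnd ℂ) (S j) * j.2 (p : ZMod j.1) with hD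
  have h2 : (A : ℂ) = ∑ p ∈ P X, b p * D p := by
    have h3 : ∀ j ∈ T, ((‖S j‖ ^ 2 : ℝ) : ℂ) = ∑ p ∈ P X, b p * ((starRingEnd ℂ) (S j) * j.2 (p : ZMod j.1)) := by
      intro j _
      have h4 : ((‖S j‖ ^ 2 : ℝ) : ℂ) = S j * (starRingEnd ℂ) (S j) := by
        rw [Complex.mul_conj, Complex.normSq_eq_norm_sq]
      have h5 : S j = ∑ p ∈ P X, b p * j.2 (p : ZMod j.1) := rfl
      rw [h4]
      nth_rewrite 1 [h5]
      rw [Finset.sum_mul]
      refine Finset.sum_congr rfl fun p _ => ?_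
      ring
    rw [hA, Complex.ofReal_sum, Finset.sum_congr rfl h3, Finset.sum_comm]
    refine Finset.sum_congr rfl fun p _ => ?_
    rw [hD, Finset.mul_sum]
  have h3 : A ≤ ∑ p ∈ P X, ‖b p‖ * ‖D p‖ := by
    have : A = ‖(A : ℂ)‖ := by
      rw [Complex.norm_real, Real.norm_of_nonneg hA0]
    rw [this, h2]
    exact (norm_sum_le _ _).trans (le_of_eq (Finset.sum_congr rfl fun p _ => norm_mul _ _))
  have h4 : A ^ 2 ≤ (∑ p ∈ P X, ‖b p‖ ^ 2) * ∑ p ∈ P X, ‖D p‖ ^ 2 :=
    (pow_le_pow_left₀ hA0 h3 2).trans (Finset.sum_mul_sq_le_sq_mul_sq _ _ _)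
  have h5 : ∑ p ∈ P X, ‖D p‖ ^ 2 ≤ (1 + ε) * N * A := by
    have h6 : ((∑ p ∈ P X, ‖D p‖ ^ 2 : ℝ) : ℂ) =
        ∑ j ∈ T, ∑ k ∈ T, (starRingEnd ℂ) (S j) * S k * Gram j k X := by
      rw [Complex.ofReal_sum]
      have h7 : ∀ p ∈ P X, ((‖D p‖ ^ 2 : ℝ) : ℂ) = ∑ j ∈ T, ∑ k ∈ T,
          (starRingEnd ℂ) (S j) * S k * (j.2 (p : ZMod j.1) * (starRingEnd ℂ) (k.2 (p : ZMod k.1))) := by
        intro p _
        have h8 : ((‖D p‖ ^ 2 : ℝ) : ℂ) = D p * (starRingEnd ℂ) (D p) := by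
          rw [Complex.mul_conj, Complex.normSq_eq_norm_sq]
        rw [h8, hD]
        simp only [map_sum, map_mul, Complex.conj_conj]
        rw [Finset.sum_mul_sum]
        refine Finset.sum_congr rfl fun j _ => Finset.sum_congr rfl fun k _ => ?_
        ring
      rw [Finset.sum_congr rfl h7, Finset.sum_comm]
      refine Finset.sum_congr rfl fun j _ => ?_
      rw [Finset.sum_comm]
      refine Finset.sum_congr rfl fun k _ => ?_
      unfold Gram
      rw [Finset.mul_sum]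
    have h7 : ∑ p ∈ P X, ‖D p‖ ^ 2 ≤ ∑ j ∈ T, ∑ k ∈ T, ‖S j‖ * ‖S k‖ * ‖Gram j k X‖ := by
      have h8 : ∑ p ∈ P X, ‖D p‖ ^ 2 = ‖((∑ p ∈ P X, ‖D p‖ ^ 2 : ℝ) : ℂ)‖ := by
        rw [Complex.norm_real, Real.norm_of_nonneg (Finset.sum_nonneg fun _ _ => by positivity)]
      rw [h8, h6]
      refine (norm_sum_le _ _).trans (Finset.sum_le_sum fun j _ => ?_)
      refine (norm_sum_le _ _).trans (le_of_eq (Finset.sum_congr rfl fun k _ => ?_))
      rw [norm_mul, norm_mul, RCLike.norm_conj]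
    refine h7.trans ?_
    have h8 : ∀ j ∈ T, ∀ k ∈ T, ‖S j‖ * ‖S k‖ * ‖Gram j k X‖ ≤
        (if j = k then ‖S j‖ ^ 2 * N else 0) + δ * N * ((‖S j‖ ^ 2 + ‖S k‖ ^ 2) / 2) := by
      intro j hj k hk
      have hN0 : 0 ≤ N := hpi.le
      split_ifs with h
      · subst h
        have h9 := norm_Gram_le j j X
        have h10 : ‖S j‖ * ‖S j‖ * ‖Gram j j X‖ ≤ ‖S j‖ * ‖S j‖ * N := by gcongr
        have h11 : 0 ≤ δ * N * ((‖S j‖ ^ 2 + ‖S j‖ ^ 2) / 2) := by positivity
        nlinarith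
      · have h9 := hX (j, k) (Finset.mem_product.2 ⟨hj, hk⟩) h
        simp only [norm_div, Complex.norm_natCast] at h9
        rw [div_le_iff₀ hpi] at h9
        have h10 : ‖S j‖ * ‖S k‖ ≤ (‖S j‖ ^ 2 + ‖S k‖ ^ 2) / 2 := by
          nlinarith [sq_nonneg (‖S j‖ - ‖S k‖)]
        calc ‖S j‖ * ‖S k‖ * ‖Gram j k X‖ ≤ ((‖S j‖ ^ 2 + ‖S k‖ ^ 2) / 2) * (δ * N) := by
              gcongr
          _ = 0 + δ * N * ((‖S j‖ ^ 2 + ‖S k‖ ^ 2) / 2) := by ring
    calc ∑ j ∈ T, ∑ k ∈ T, ‖S j‖ * ‖S k‖ * ‖Gram j k X‖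
        ≤ ∑ j ∈ T, ∑ k ∈ T, ((if j = k then ‖S j‖ ^ 2 * N else 0) +
            δ * N * ((‖S j‖ ^ 2 + ‖S k‖ ^ 2) / 2)) :=
          Finset.sum_le_sum fun j hj => Finset.sum_le_sum fun k hk => h8 j hj k hk
      _ = A * N + δ * N * (T.card * A) := by
          have e1 : ∀ j ∈ T, ∑ k ∈ T, ((if j = k then ‖S j‖ ^ 2 * N else 0) +
              δ * N * ((‖S j‖ ^ 2 + ‖S k‖ ^ 2) / 2)) =
              ‖S j‖ ^ 2 * N + δ * N * ((T.card * ‖S j‖ ^ 2 + A) / 2) := by
            intro j hj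
            rw [Finset.sum_add_distrib, Finset.sum_ite_eq, if_pos hj, ← Finset.mul_sum,
              ← Finset.sum_div, Finset.sum_add_distrib, Finset.sum_const, nsmul_eq_mul]
          rw [Finset.sum_congr rfl e1, Finset.sum_add_distrib, ← Finset.sum_mul, ← Finset.mul_sum,
            ← Finset.sum_div, Finset.sum_add_distrib, Finset.sum_const, nsmul_eq_mul,
            ← Finset.mul_sum]
          ring
      _ ≤ (1 + ε) * N * A := by
          have h9 : δ * (T.card : ℝ) ≤ ε := by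
            rw [hδ, div_mul_eq_mul_div, div_le_iff₀ hc0]
            nlinarith
          have h10 : δ * (T.card : ℝ) * (N * A) ≤ ε * (N * A) := by
            have : 0 ≤ N * A := mul_nonneg hpi.le hA0
            gcongr
          nlinarith
  have h6 : A ^ 2 ≤ ((1 + ε) * N * ∑ p ∈ P X, ‖b p‖ ^ 2) * A := by
    have h7 : 0 ≤ ∑ p ∈ P X, ‖b p‖ ^ 2 := Finset.sum_nonneg fun _ _ => by positivity
    calc A ^ 2 ≤ (∑ p ∈ P X, ‖b p‖ ^ 2) * ∑ p ∈ P X, ‖D p‖ ^ 2 := h4
      _ ≤ (∑ p ∈ P X, ‖b p‖ ^ 2) * ((1 + ε) * N * A) := by gcongr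
      _ = ((1 + ε) * N * ∑ p ∈ P X, ‖b p‖ ^ 2) * A := by ring
  rcases hA0.eq_or_lt with h | h
  · rw [← h]
    have h7 : 0 ≤ ∑ p ∈ P X, ‖b p‖ ^ 2 := Finset.sum_nonneg fun _ _ => by positivity
    have : 0 ≤ N := hpi.le
    positivity
  · rw [pow_two] at h6
    exact le_of_mul_le_mul_right h6 h

end Pool.Agent.Helper7.ST
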