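import Pool.Agent.Helper7.ST.Descent

set_option autoImplicit false

/-!
Limit points of averages over the primes of a number field `K` and of the fields `K L`, `L` abelian
over the rationals of prime conductor.
-/

namespace Pool.Agent.Helper7.ST

open Filter Topology Finset NumberField IsDedekindDomain
open Pool.Agent.Helper4.ST (PS coef qv primesLE mem_primesLE qv_coprime)

universe u

section

variable {K : Type u} [Field K] [NumberField K]

/-- The inequality along a filter. -/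
theorem bessel_lim' (good : HeightOneSpectrum (𝓞 K) → Prop) (F : HeightOneSpectrum (𝓞 K) → ℂ)
    (hF : ∀ v, ‖F v‖ ≤ 1) (H : ∀ q : ℕ, Subgroup (ZMod q)ˣ) (c : ℕ → ℂ) (Q : Finset ℕ)
    (g : Filter ℕ) [NeBot g] (hg : g ≤ atTop)
    (hQ : ∀ q ∈ Q, q.Prime ∧ Tendsto (avH good F q (H q)) g (𝓝 (c q)))
    (a : ℂ) (ha : Tendsto (avK good F) g (𝓝 a)) :
    ∑ q ∈ Q, ‖c q - a‖ ^ 2 / ((H q).index : ℝ) ≤ (Module.finrank ℚ K : ℝ) ^ 2 := by
  have h1 : Tendsto (fun X => ∑ q ∈ Q, ‖avH good F q (H q) X - avP good F q X‖ ^ 2 /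
      ((H q).index : ℝ)) g (𝓝 (∑ q ∈ Q, ‖c q - a‖ ^ 2 / ((H q).index : ℝ))) := by
    apply tendsto_finsetSum
    intro q hq
    have h2 : Tendsto (avP good F q) g (𝓝 a) := by
      have h3 := (avP_sub good F hF (hQ q hq).1).mono_left hg
      have h4 := ha.sub h3
      simpa using h4
    exact ((((hQ q hq).2.sub h2).norm).pow 2).div_const _
  apply le_of_forall_pos_le_add
  intro δ hδ
  refine le_of_tendsto h1 ?_
  have h2 := (bessel_av good Q (fun q hq => (hQ q hq).1) H δ hδ).filter_mono hg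
  filter_upwards [h2] with X hX
  exact hX F hF

private theorem bdd_of_eventually (u : ℕ → ℂ) (C : ℝ) (h : ∀ᶠ X in atTop, ‖u X‖ ≤ C) :
    ∃ R : ℝ, ∀ X, ‖u X‖ ≤ R := by
  obtain ⟨N, hN⟩ := eventually_atTop.1 h
  refine ⟨|C| + ∑ i ∈ range N, ‖u i‖, fun X => ?_⟩
  have h0 : 0 ≤ ∑ i ∈ range N, ‖u i‖ := Finset.sum_nonneg fun _ _ => norm_nonneg _
  rcases lt_or_ge X N with hX | hX
  · have h1 : ‖u X‖ ≤ ∑ i ∈ range N, ‖u i‖ :=
      Finset.single_le_sum (f := fun i => ‖u i‖) (fun _ _ => norm_nonneg _)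
        (Finset.mem_range.2 hX)
    have := abs_nonneg C
    linarith
  · have h1 := hN X hX
    have := le_abs_self C
    linarith

/-- **Limit points** for functions bounded by `1`. -/
theorem limits_one (good : HeightOneSpectrum (𝓞 K) → Prop) (F : HeightOneSpectrum (𝓞 K) → ℂ)
    (hF : ∀ v, ‖F v‖ ≤ 1) (Q : Set ℕ) (H : ∀ q : ℕ, Subgroup (ZMod q)ˣ)
    (hQ : ∀ q ∈ Q, q.Prime) (φ : ℕ → ℕ) (hφ : Tendsto φ atTop atTop) (a : ℂ)
    (ha : Tendsto (fun i => avK good F (φ i)) atTop (𝓝 a)) :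
    ∃ ψ : ℕ → ℕ, StrictMono ψ ∧ ∃ c : ℕ → ℂ,
      (∀ q ∈ Q, Tendsto (fun i => avH good F q (H q) (φ (ψ i))) atTop (𝓝 (c q))) ∧
      ∀ S : Finset ℕ, (S : Set ℕ) ⊆ Q →
        ∑ q ∈ S, ‖c q - a‖ ^ 2 / ((H q).index : ℝ) ≤ (Module.finrank ℚ K : ℝ) ^ 2 := by
  classical
  have hb : ∀ q : ℕ, ∃ R : ℝ, ∀ X, ‖avH good F q (H q) X‖ ≤ R := by
    intro q
    obtain ⟨R, hR⟩ := bdd_of_eventually _ _ (avK_bdd (K := K) (fun v => good v ∧ ∃ h ∈ H q,
      (qv v : ZMod q) = ((h : (ZMod q)ˣ) : ZMod q)) F hF)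
    refine ⟨(H q).index * R, fun X => ?_⟩
    have h1 : avH good F q (H q) X = ((H q).index : ℂ) * avK (fun v => good v ∧ ∃ h ∈ H q,
        (qv v : ZMod q) = ((h : (ZMod q)ˣ) : ZMod q)) F X := by
      unfold avH avK
      rw [mul_div_assoc]
      congr!
    rw [h1, norm_mul, Complex.norm_natCast]
    exact mul_le_mul_of_nonneg_left (hR X) (Nat.cast_nonneg _)
  choose R hR using hb
  have hK : IsCompact (Set.pi Set.univ fun q : ℕ => Metric.closedBall (0 : ℂ) (R q)) :=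
    isCompact_univ_pi fun q => isCompact_closedBall _ _
  obtain ⟨c, _, ψ, hψ, hlim⟩ := hK.tendsto_subseq
    (x := fun i => fun q => avH good F q (H q) (φ i)) (fun i q _ => by
      rw [mem_closedBall_zero_iff]
      exact hR q _)
  have hc : ∀ q, Tendsto (fun i => avH good F q (H q) (φ (ψ i))) atTop (𝓝 (c q)) :=
    fun q => (tendsto_pi_nhds.1 hlim) q
  have hφψ : Tendsto (fun i => φ (ψ i)) atTop atTop := hφ.comp hψ.tendsto_atTop
  refine ⟨ψ, hψ, c, fun q _ => hc q, fun S hS => ?_⟩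
  exact bessel_lim' good F hF H c S (Filter.map (fun i => φ (ψ i)) atTop) hφψ
    (fun q hq => ⟨hQ q (hS hq), tendsto_map'_iff.2 (hc q)⟩) a
    (tendsto_map'_iff.2 (ha.comp hψ.tendsto_atTop))

end

end Pool.Agent.Helper7.ST
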