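import Pool.Agent.Helper7.ST.BesselK

set_option autoImplicit false

/-!
Sums over the primes of a number field in cosets of subgroups of `(ℤ/q)ˣ`, `q` prime.
-/

namespace Pool.Agent.Helper7.ST

open Filter Topology Finset NumberField IsDedekindDomain
open Pool.Agent.Helper4.ST (PS coef qv primesLE mem_primesLE qv_coprime)

universe u

theorem primitive_of_prime {q : ℕ} (hq : q.Prime) {χ : DirichletCharacter ℂ q} (h : χ ≠ 1) :
    χ.IsPrimitive := by
  have : NeZero q := ⟨hq.ne_zero⟩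
  rw [DirichletCharacter.isPrimitive_def]
  rcases (Nat.dvd_prime hq).1 χ.conductor_dvd_level with h1 | h1
  · exact absurd ((DirichletCharacter.eq_one_iff_conductor_eq_one).2 h1) h
  · exact h1

/-- An elementary inequality: deviation of coset sums. -/
theorem coset_dev {q : ℕ} [NeZero q] (Z : (ZMod q)ˣ → ℂ) (H : Subgroup (ZMod q)ˣ) (a : (ZMod q)ˣ)
    (B : Finset (ZMod q)ˣ) (hB : ∀ b, b ∈ B ↔ ∃ h ∈ H, b = a * h) :
    ‖(H.index : ℂ) * ∑ b ∈ B, Z b - ∑ b, Z b‖ ^ 2 ≤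
      (H.index : ℝ) * q.totient * ∑ b, ‖Z b - (∑ b, Z b) / (q.totient : ℂ)‖ ^ 2 := by
  classical
  set t : ℂ := ∑ b, Z b with ht
  set φ : ℕ := q.totient with hφ
  have hφ0 : (φ : ℝ) ≠ 0 := by
    have : 0 < φ := Nat.totient_pos.2 (Nat.pos_of_ne_zero (NeZero.ne q))
    exact_mod_cast this.ne'
  have hφ0' : (φ : ℂ) ≠ 0 := by exact_mod_cast hφ0
  have hcard : B.card = Nat.card H := by
    have h1 : B = ((Finset.univ.filter (fun h : (ZMod q)ˣ => h ∈ H)).map
        ⟨fun h => a * h, mul_right_injective a⟩) := by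
      ext b
      rw [hB, Finset.mem_map]
      constructor
      · rintro ⟨h, hH, rfl⟩
        exact ⟨h, Finset.mem_filter.2 ⟨Finset.mem_univ _, hH⟩, rfl⟩
      · rintro ⟨h, hH, rfl⟩
        exact ⟨h, (Finset.mem_filter.1 hH).2, rfl⟩
    rw [h1, Finset.card_map, Nat.card_eq_fintype_card, Fintype.card_subtype]
  have hm : H.index * B.card = φ := by
    rw [hcard, Subgroup.index_mul_card, Nat.card_eq_fintype_card, ZMod.card_units_eq_totient]
  have hm' : (H.index : ℝ) * B.card = φ := by exact_mod_cast hm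
  have hm'' : (H.index : ℂ) * B.card = φ := by exact_mod_cast hm
  have h1 : (H.index : ℂ) * ∑ b ∈ B, Z b - t = H.index * ∑ b ∈ B, (Z b - t / φ) := by
    rw [Finset.sum_sub_distrib, Finset.sum_const, nsmul_eq_mul, mul_sub, ← mul_assoc, hm'']
    congr 1
    field_simp
  rw [h1, norm_mul, mul_pow, Complex.norm_natCast]
  have h2 : ‖∑ b ∈ B, (Z b - t / φ)‖ ^ 2 ≤ B.card * ∑ b ∈ B, ‖Z b - t / φ‖ ^ 2 := by
    calc ‖∑ b ∈ B, (Z b - t / φ)‖ ^ 2 ≤ (∑ b ∈ B, 1 * ‖Z b - t / φ‖) ^ 2 := by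
          apply pow_le_pow_left₀ (norm_nonneg _)
          simp only [one_mul]
          exact norm_sum_le _ _
      _ ≤ (∑ b ∈ B, (1 : ℝ) ^ 2) * ∑ b ∈ B, ‖Z b - t / φ‖ ^ 2 :=
          Finset.sum_mul_sq_le_sq_mul_sq _ _ _
      _ = B.card * ∑ b ∈ B, ‖Z b - t / φ‖ ^ 2 := by simp
  have h3 : ∑ b ∈ B, ‖Z b - t / φ‖ ^ 2 ≤ ∑ b, ‖Z b - t / φ‖ ^ 2 :=
    Finset.sum_le_sum_of_subset_of_nonneg (Finset.subset_univ _) fun _ _ _ => by positivity
  calc (H.index : ℝ) ^ 2 * ‖∑ b ∈ B, (Z b - t / φ)‖ ^ 2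
      ≤ (H.index : ℝ) ^ 2 * (B.card * ∑ b, ‖Z b - t / φ‖ ^ 2) := by
        gcongr
        exact h2.trans (by gcongr)
    _ = (H.index : ℝ) * (H.index * B.card) * ∑ b, ‖Z b - t / φ‖ ^ 2 := by ring
    _ = (H.index : ℝ) * φ * ∑ b, ‖Z b - t / φ‖ ^ 2 := by rw [hm']

open Classical in
/-- The nonprincipal characters modulo `q`. -/
noncomputable def nonprin (q : ℕ) [NeZero q] : Finset (DirichletCharacter ℂ q) :=
  Finset.univ.filter (fun χ => χ ≠ 1)

theorem mem_nonprin {q : ℕ} [NeZero q] {χ : DirichletCharacter ℂ q} :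
    χ ∈ nonprin q ↔ χ ≠ 1 := by
  classical
  unfold nonprin
  simp

/-- Parseval for the deviation from the mean. -/
theorem dev_parseval {q : ℕ} [NeZero q] (Z : (ZMod q)ˣ → ℂ) :
    (q.totient : ℝ) * ∑ b, ‖Z b - (∑ b, Z b) / (q.totient : ℂ)‖ ^ 2 =
      ∑ χ ∈ nonprin q, ‖∑ b : (ZMod q)ˣ, χ (b : ZMod q) * Z b‖ ^ 2 := by
  classical
  set t : ℂ := ∑ b, Z b with ht
  set φ : ℕ := q.totient with hφ
  have hφ0 : (φ : ℝ) ≠ 0 := by
    have : 0 < φ := Nat.totient_pos.2 (Nat.pos_of_ne_zero (NeZero.ne q))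
    exact_mod_cast this.ne'
  have hφ0' : (φ : ℂ) ≠ 0 := by exact_mod_cast hφ0
  set W : ZMod q → ℂ := fun x => if h : IsUnit x then Z h.unit - t / φ else 0 with hW
  have hWu : ∀ b : (ZMod q)ˣ, W (b : ZMod q) = Z b - t / φ := by
    intro b
    rw [hW]
    simp only
    rw [dif_pos b.isUnit]
    congr 2
    exact Units.ext (IsUnit.unit_spec _)
  have h1 := Pool.Agent.Helper4.ST.mult_parseval W
  have hunits : ∀ g : ZMod q → ℂ, ∑ x ∈ Finset.univ.filter (fun x : ZMod q => IsUnit x), g x =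
      ∑ b : (ZMod q)ˣ, g (b : ZMod q) := by
    intro g
    symm
    apply Finset.sum_bij (fun (b : (ZMod q)ˣ) _ => (b : ZMod q))
    · intro b _
      exact Finset.mem_filter.2 ⟨Finset.mem_univ _, b.isUnit⟩
    · intro b _ b' _ h
      exact Units.ext h
    · intro x hx
      obtain ⟨b, hb⟩ := (Finset.mem_filter.1 hx).2
      exact ⟨b, Finset.mem_univ _, hb⟩
    · intro b _
      rfl
  have hunits' : ∀ g : ZMod q → ℝ, ∑ x ∈ Finset.univ.filter (fun x : ZMod q => IsUnit x), g x =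
      ∑ b : (ZMod q)ˣ, g (b : ZMod q) := by
    intro g
    symm
    apply Finset.sum_bij (fun (b : (ZMod q)ˣ) _ => (b : ZMod q))
    · intro b _
      exact Finset.mem_filter.2 ⟨Finset.mem_univ _, b.isUnit⟩
    · intro b _ b' _ h
      exact Units.ext h
    · intro x hx
      obtain ⟨b, hb⟩ := (Finset.mem_filter.1 hx).2
      exact ⟨b, Finset.mem_univ _, hb⟩
    · intro b _
      rfl
  have h2 : ∑ x ∈ Finset.univ.filter (fun x : ZMod q => IsUnit x), ‖W x‖ ^ 2 =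
      ∑ b : (ZMod q)ˣ, ‖Z b - t / φ‖ ^ 2 := by
    rw [hunits' (fun x => ‖W x‖ ^ 2)]
    refine Finset.sum_congr rfl fun b _ => ?_
    rw [hWu]
  have h3 : ∀ χ : DirichletCharacter ℂ q, ∑ x : ZMod q, χ x * W x =
      ∑ b : (ZMod q)ˣ, χ (b : ZMod q) * (Z b - t / φ) := by
    intro χ
    have h4 : ∑ x : ZMod q, χ x * W x =
        ∑ x ∈ Finset.univ.filter (fun x : ZMod q => IsUnit x), χ x * W x := by
      rw [Finset.sum_filter]
      refine Finset.sum_congr rfl fun x _ => ?_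
      split_ifs with h
      · rfl
      · rw [χ.map_nonunit h, zero_mul]
    rw [h4, hunits (fun x => χ x * W x)]
    refine Finset.sum_congr rfl fun b _ => ?_
    rw [hWu]
  have hcardu : (Fintype.card (ZMod q)ˣ : ℂ) = φ := by
    rw [ZMod.card_units_eq_totient]
  have h5 : ∑ b : (ZMod q)ˣ, (1 : DirichletCharacter ℂ q) (b : ZMod q) * (Z b - t / φ) = 0 := by
    have h6 : ∀ b : (ZMod q)ˣ, (1 : DirichletCharacter ℂ q) (b : ZMod q) * (Z b - t / φ) =
        Z b - t / φ := by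
      intro b
      rw [MulChar.one_apply b.isUnit, one_mul]
    rw [Finset.sum_congr rfl fun b _ => h6 b, Finset.sum_sub_distrib, Finset.sum_const,
      Finset.card_univ, nsmul_eq_mul, hcardu, ← ht]
    field_simp
    ring
  have h6 : ∀ χ ∈ nonprin q, ∑ b : (ZMod q)ˣ, χ (b : ZMod q) * (Z b - t / φ) =
      ∑ b : (ZMod q)ˣ, χ (b : ZMod q) * Z b := by
    intro χ hχ
    have hne : χ ≠ 1 := (Finset.mem_filter.1 hχ).2
    have h7 : ∑ b : (ZMod q)ˣ, χ (b : ZMod q) = 0 := by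
      rw [← hunits (fun x => χ x)]
      rw [← MulChar.sum_eq_zero_of_ne_one hne, Finset.sum_filter]
      refine Finset.sum_congr rfl fun x _ => ?_
      split_ifs with h
      · rfl
      · rw [χ.map_nonunit h]
    calc ∑ b : (ZMod q)ˣ, χ (b : ZMod q) * (Z b - t / φ)
        = ∑ b : (ZMod q)ˣ, χ (b : ZMod q) * Z b - (∑ b : (ZMod q)ˣ, χ (b : ZMod q)) * (t / φ) := by
          rw [Finset.sum_mul, ← Finset.sum_sub_distrib]
          refine Finset.sum_congr rfl fun b _ => ?_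
          ring
      _ = _ := by rw [h7, zero_mul, sub_zero]
  rw [h2] at h1
  rw [← h1]
  simp only [h3]
  rw [← Finset.sum_filter_add_sum_filter_not Finset.univ (fun χ : DirichletCharacter ℂ q => χ ≠ 1)]
  have h8 : ∑ χ ∈ Finset.univ.filter (fun χ : DirichletCharacter ℂ q => ¬ χ ≠ 1),
      ‖∑ b : (ZMod q)ˣ, χ (b : ZMod q) * (Z b - t / φ)‖ ^ 2 = 0 := by
    apply Finset.sum_eq_zero
    intro χ hχ
    have : χ = 1 := not_not.1 (Finset.mem_filter.1 hχ).2
    rw [this, h5]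
    simp
  rw [h8, add_zero]
  unfold nonprin
  refine Finset.sum_congr ?_ fun χ hχ => ?_
  · ext χ
    simp
  · rw [h6 χ]
    unfold nonprin
    simpa using hχ

section

variable {K : Type u} [Field K] [NumberField K]

open Classical in
/-- The sum over a residue class. -/
noncomputable def Zs (X : ℕ) (good : HeightOneSpectrum (𝓞 K) → Prop)
    (F : HeightOneSpectrum (𝓞 K) → ℂ) (q : ℕ) (b : (ZMod q)ˣ) : ℂ :=
  ∑ v ∈ (primesLE K X).filter (fun v => good v ∧ (qv v : ZMod q) = b), F v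

theorem unit_iff {q : ℕ} (v : HeightOneSpectrum (𝓞 K)) :
    IsUnit (qv v : ZMod q) ↔ (q : 𝓞 K) ∉ v.asIdeal := by
  constructor
  · intro h3 h4
    have hcop := (ZMod.isUnit_iff_coprime _ _).1 h3
    obtain ⟨a, b, hab⟩ := Nat.isCoprime_iff_coprime.2 hcop
    have h8 : (1 : 𝓞 K) ∈ v.asIdeal := by
      have : (1 : 𝓞 K) = (a : 𝓞 K) * (qv v : ℕ) + (b : 𝓞 K) * q := by
        exact_mod_cast congrArg (fun z : ℤ => (z : 𝓞 K)) hab.symm
      rw [this]
      exact v.asIdeal.add_mem (v.asIdeal.mul_mem_left _ (Ideal.absNorm_mem v.asIdeal))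
        (v.asIdeal.mul_mem_left _ h4)
    exact v.isPrime.ne_top ((Ideal.eq_top_iff_one _).2 h8)
  · intro h
    exact (ZMod.isUnit_iff_coprime _ _).2 (qv_coprime v h)

open Classical in
theorem sum_Zs (X : ℕ) (good : HeightOneSpectrum (𝓞 K) → Prop)
    (F : HeightOneSpectrum (𝓞 K) → ℂ) (q : ℕ) [NeZero q] (B : Finset (ZMod q)ˣ)
    (g : (ZMod q)ˣ → ℂ) (g' : ZMod q → ℂ) (hg : ∀ b : (ZMod q)ˣ, g' (b : ZMod q) = g b) :
    ∑ b ∈ B, g b * Zs X good F q b =
      ∑ v ∈ (primesLE K X).filter (fun v => good v ∧ ∃ b ∈ B, (qv v : ZMod q) = b),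
        g' (qv v : ZMod q) * F v := by
  unfold Zs
  have h1 : ∀ b ∈ B, g b * ∑ v ∈ (primesLE K X).filter (fun v => good v ∧ (qv v : ZMod q) = b), F v =
      ∑ v ∈ ((primesLE K X).filter (fun v => good v ∧ ∃ b ∈ B, (qv v : ZMod q) = b)).filter
        (fun v => (qv v : ZMod q) = b), g' (qv v : ZMod q) * F v := by
    intro b hb
    rw [Finset.mul_sum]
    have h2 : ((primesLE K X).filter (fun v => good v ∧ ∃ b ∈ B, (qv v : ZMod q) = b)).filter
        (fun v => (qv v : ZMod q) = b) =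
        (primesLE K X).filter (fun v => good v ∧ (qv v : ZMod q) = b) := by
      ext v
      simp only [Finset.mem_filter]
      constructor
      · rintro ⟨⟨h, h', _⟩, h''⟩
        exact ⟨h, h', h''⟩
      · rintro ⟨h, h', h''⟩
        exact ⟨⟨h, h', b, hb, h''⟩, h''⟩
    rw [h2]
    refine Finset.sum_congr rfl fun v hv => ?_
    rw [(Finset.mem_filter.1 hv).2.2, hg]
  rw [Finset.sum_congr rfl h1]
  -- fiberwise
  have h3 : ∀ v ∈ (primesLE K X).filter (fun v => good v ∧ ∃ b ∈ B, (qv v : ZMod q) = b),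
      (qv v : ZMod q) ∈ B.map ⟨Units.val, Units.val_injective⟩ := by
    intro v hv
    obtain ⟨b, hb, h⟩ := (Finset.mem_filter.1 hv).2.2
    rw [Finset.mem_map]
    exact ⟨b, hb, h.symm⟩
  rw [← Finset.sum_fiberwise_of_maps_to h3, Finset.sum_map]
  rfl

open Classical in
/-- From a bound for the nonprincipal character sums to cosets. -/
theorem coset_bound (X : ℕ) (good : HeightOneSpectrum (𝓞 K) → Prop)
    (F : HeightOneSpectrum (𝓞 K) → ℂ) (q : ℕ) [NeZero q] (M : ℝ) (hM : 0 ≤ M)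
    (h : ∑ χ ∈ nonprin q, ‖∑ v ∈ (primesLE K X).filter good, χ (qv v : ZMod q) * F v‖ ^ 2 ≤ M ^ 2)
    (H : Subgroup (ZMod q)ˣ) (a : (ZMod q)ˣ) :
    ‖(H.index : ℂ) * ∑ v ∈ (primesLE K X).filter
        (fun v => good v ∧ ∃ h ∈ H, (qv v : ZMod q) = ((a * h : (ZMod q)ˣ) : ZMod q)), F v -
      ∑ v ∈ (primesLE K X).filter (fun v => good v ∧ (q : 𝓞 K) ∉ v.asIdeal), F v‖ ≤
      Real.sqrt H.index * M := by
  set Z : (ZMod q)ˣ → ℂ := Zs X good F q with hZ
  set B : Finset (ZMod q)ˣ := Finset.univ.filter (fun b => ∃ h ∈ H, b = a * h) with hB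
  have hBmem : ∀ b, b ∈ B ↔ ∃ h ∈ H, b = a * h := by
    intro b
    rw [hB, Finset.mem_filter]
    simp
  have h1 := coset_dev Z H a B hBmem
  have h2 := dev_parseval Z
  have h3 : ∀ χ ∈ nonprin q, ∑ b : (ZMod q)ˣ, χ (b : ZMod q) * Z b =
      ∑ v ∈ (primesLE K X).filter good, χ (qv v : ZMod q) * F v := by
    intro χ _
    rw [hZ, sum_Zs X good F q Finset.univ (fun b => χ (b : ZMod q)) (fun x => χ x) (fun _ => rfl)]
    apply Finset.sum_subset
    · intro v hv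
      rw [Finset.mem_filter] at hv ⊢
      exact ⟨hv.1, hv.2.1⟩
    · intro v hv hv'
      rw [Finset.mem_filter] at hv hv'
      have : ¬ IsUnit (qv v : ZMod q) := by
        rintro ⟨b, hb⟩
        exact hv' ⟨hv.1, hv.2, b, Finset.mem_univ _, hb.symm⟩
      rw [χ.map_nonunit this, zero_mul]
  have h4 : ∑ b, Z b = ∑ v ∈ (primesLE K X).filter (fun v => good v ∧ (q : 𝓞 K) ∉ v.asIdeal), F v := by
    have := sum_Zs X good F q Finset.univ (fun _ => 1) (fun _ => 1) (fun _ => rfl)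
    simp only [one_mul] at this
    rw [hZ, this]
    refine Finset.sum_congr ?_ fun _ _ => rfl
    ext v
    simp only [Finset.mem_filter]
    refine and_congr_right fun _ => and_congr_right fun _ => ?_
    rw [← unit_iff]
    constructor
    · rintro ⟨b, _, hb⟩
      exact ⟨b, hb.symm⟩
    · rintro ⟨b, hb⟩
      exact ⟨b, Finset.mem_univ _, hb.symm⟩
  have h5 : ∑ b ∈ B, Z b = ∑ v ∈ (primesLE K X).filter
      (fun v => good v ∧ ∃ h ∈ H, (qv v : ZMod q) = ((a * h : (ZMod q)ˣ) : ZMod q)), F v := by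
    have := sum_Zs X good F q B (fun _ => 1) (fun _ => 1) (fun _ => rfl)
    simp only [one_mul] at this
    rw [hZ, this]
    refine Finset.sum_congr ?_ fun _ _ => rfl
    ext v
    simp only [Finset.mem_filter]
    refine and_congr_right fun _ => and_congr_right fun _ => ?_
    constructor
    · rintro ⟨b, hb, h'⟩
      obtain ⟨h, hH, rfl⟩ := (hBmem b).1 hb
      exact ⟨h, hH, h'⟩
    · rintro ⟨h, hH, h'⟩
      exact ⟨a * h, (hBmem _).2 ⟨h, hH, rfl⟩, h'⟩
  have h2' : ∑ χ ∈ nonprin q, ‖∑ b : (ZMod q)ˣ, χ (b : ZMod q) * Z b‖ ^ 2 =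
      ∑ χ ∈ nonprin q, ‖∑ v ∈ (primesLE K X).filter good, χ (qv v : ZMod q) * F v‖ ^ 2 :=
    Finset.sum_congr rfl fun χ hχ => by rw [h3 χ hχ]
  rw [h2'] at h2
  rw [h5, h4] at h1
  rw [h4] at h2
  have h6 : ‖(H.index : ℂ) * ∑ v ∈ (primesLE K X).filter
        (fun v => good v ∧ ∃ h ∈ H, (qv v : ZMod q) = ((a * h : (ZMod q)ˣ) : ZMod q)), F v -
      ∑ v ∈ (primesLE K X).filter (fun v => good v ∧ (q : 𝓞 K) ∉ v.asIdeal), F v‖ ^ 2 ≤
      (Real.sqrt H.index * M) ^ 2 := by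
    refine h1.trans ?_
    rw [mul_assoc, h2, mul_pow, Real.sq_sqrt (Nat.cast_nonneg _)]
    gcongr
  exact le_of_sq_le_sq h6 (by positivity)

end

end Pool.Agent.Helper7.ST
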